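import Mathlib
import Pool.Agent.N382.CP.Main

/-!
# Two-subgraph covers of cocktail-party graphs without a monochromatic triangle at a matched pair

Let `G_n` be the complete graph on `n = 2 m` vertices minus a perfect matching, with a 2-colouring of
its edges.  If some vertex and its partner are in no triangle of one of the colours (in particular, if
one colour class is triangle-free), then there is a `(2, 2)`-cover.

Proof.  Let the blue neighbourhoods of `v` and `v'` have no blue edges.  The red star at `v` and `v'`
with the blue neighbours of `v` is a `(2, 2)`-cover unless the only blue neighbour of `v` joined to
`v'` in red is the partner `q` of a common blue neighbour of `v` and `v'`; the same holds for `v'`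
with a vertex `p`.  Then `v`, `v'`, their common red neighbours and possibly `p` or `q` form one part,
the blue neighbours of `v` or of `v'` or of both the other one, and in the last case the blue graph
itself has diameter two.
-/

set_option autoImplicit false

namespace Pool.Agent.Results.MP_9fa5c3_co.NoTriangle

open Pool.Agent.N382.CP

/-- A 2-coloured cocktail-party graph has a `(2, 2)`-cover if some vertex and its partner are in no
triangle of one of the colours. -/
theorem result (m : ℕ) (c : Vert m → Vert m → Bool) (hc : ∀ u w, c u w = c w u)
    (b : Bool) (v : Vert m) (h : NoTriangleAt c b v) (h' : NoTriangleAt c b (partner v)) :
    HasCover c 2 2 := triangle c hc b v h h'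

end Pool.Agent.Results.MP_9fa5c3_co.NoTriangle
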