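import Mathlib
import Pool.Agent.N382.CP.Main

/-!
# Every two-coloured cocktail-party graph has a cover by subgraphs of diameter two and three

Let `G_n` be the complete graph on `n = 2 m` vertices minus a perfect matching, with a 2-colouring of
its edges.  There is a `(2, 3)`-cover.

Proof.  If `v` and its partner `v'` have a common blue neighbour, the red star at `v` and the blue
graph on `v`, `v'` and the blue neighbours of `v` are a `(2, 3)`-cover; if they have neither a common
red nor a common blue neighbour, the blue stars at `v` and `v'` cover everything.
-/

set_option autoImplicit false

namespace Pool.Agent.Results.MP_9fa5c3_co.TwoThreeCover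

open Pool.Agent.N382.CP

/-- Every 2-coloured cocktail-party graph has a `(2, 3)`-cover. -/
theorem result (m : ℕ) (c : Vert m → Vert m → Bool) (hc : ∀ u w, c u w = c w u) :
    HasCover c 2 3 := cover23 m c hc

end Pool.Agent.Results.MP_9fa5c3_co.TwoThreeCover
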